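import Pool.Agent.K1H17.LP.Stm2

/-! Project LP (helper17), piece LP-6: the places of the projective line. -/

set_option autoImplicit false

open FF Polynomial Pool.Agent.W619.PQ Pool.Agent.W619.TW Pool.Agent.W603.LV Pool.Agent.Y174
  Pool.Agent.K1H17.IS Pool.Agent.K1H17.TP Pool.Agent.K1H17.LP

namespace Pool.Agent.K1H69.LP

section

variable {k K : Type} [Field k] [Field K] [Algebra k K] {X : K}

theorem av_ne (hX : IsLine k X) {p : k[X]} (hp : p ≠ 0) : aeval X p ≠ 0 :=
  fun h => hp ((transcendental_iff.1 hX.tr) p h)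

theorem exists_frac (hX : IsLine k X) (z : K) :
    ∃ p q : k[X], q ≠ 0 ∧ z = aeval X p / aeval X q := by
  have hz : z ∈ IntermediateField.adjoin k {X} := by rw [hX.top]; trivial
  obtain ⟨r, s, h⟩ := (IntermediateField.mem_adjoin_simple_iff k z).1 hz
  by_cases hs : s = 0
  · exact ⟨0, 1, one_ne_zero, by rw [h, hs]; simp⟩
  · exact ⟨r, s, hs, h⟩

/-- A nonzero element is a quotient of nonzero polynomials. -/
theorem exists_frac' (hX : IsLine k X) {z : K} (hz : z ≠ 0) :
    ∃ p q : k[X], p ≠ 0 ∧ q ≠ 0 ∧ z = aeval X p / aeval X q := by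
  obtain ⟨p, q, hq, h⟩ := exists_frac hX z
  refine ⟨p, q, ?_, hq, h⟩
  rintro rfl
  exact hz (by rw [h]; simp)

/-- Construction of places. -/
theorem exists_place (hX : IsLine k X) (μ : k[X] → ℤ)
    (h1 : ∀ p q : k[X], p ≠ 0 → q ≠ 0 → μ (p * q) = μ p + μ q)
    (h2 : ∀ p q : k[X], p ≠ 0 → q ≠ 0 → p + q ≠ 0 → min (μ p) (μ q) ≤ μ (p + q))
    (h3 : ∀ c : k, c ≠ 0 → μ (C c) = 0)
    (h4 : ∃ p q : k[X], p ≠ 0 ∧ q ≠ 0 ∧ μ p - μ q = 1) :
    ∃ P : Place k K, ∀ p : k[X], p ≠ 0 → P.ord (aeval X p) = μ p := by
  classical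
  let o : K → ℤ := fun z => if h : z = 0 then 0 else
    μ (exists_frac' hX h).choose - μ (exists_frac' hX h).choose_spec.choose
  have key : ∀ p q : k[X], p ≠ 0 → q ≠ 0 → o (aeval X p / aeval X q) = μ p - μ q := by
    intro p q hp hq
    have hz : aeval X p / aeval X q ≠ 0 := div_ne_zero (av_ne hX hp) (av_ne hX hq)
    simp only [o, dif_neg hz]
    obtain ⟨hp', hq', h⟩ := (exists_frac' hX hz).choose_spec.choose_spec
    generalize (exists_frac' hX hz).choose_spec.choose = q' at *
    generalize (exists_frac' hX hz).choose = p' at *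
    rw [div_eq_div_iff (av_ne hX hq) (av_ne hX hq'), ← map_mul, ← map_mul] at h
    have h5 : p * q' = p' * q := by
      by_contra hne
      exact av_ne hX (sub_ne_zero.2 hne) (by rw [map_sub, h, sub_self])
    have h6 := h1 p q' hp hq'
    rw [h5, h1 p' q hp' hq] at h6
    omega
  have key1 : ∀ p : k[X], p ≠ 0 → o (aeval X p) = μ p := by
    intro p hp
    have := key p 1 hp one_ne_zero
    rw [map_one, div_one] at this
    rw [this]
    have := h3 1 one_ne_zero
    rw [C_1] at this
    omega
  refine ⟨⟨o, by simp [o], ?_, ?_, ?_, ?_⟩, key1⟩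
  · intro f g hf hg
    obtain ⟨p, q, hp, hq, rfl⟩ := exists_frac' hX hf
    obtain ⟨p', q', hp', hq', rfl⟩ := exists_frac' hX hg
    rw [div_mul_div_comm, ← map_mul, ← map_mul, key _ _ (mul_ne_zero hp hp') (mul_ne_zero hq hq'),
      key _ _ hp hq, key _ _ hp' hq', h1 _ _ hp hp', h1 _ _ hq hq']
    ring
  · intro f g hf hg hfg
    obtain ⟨p, q, hp, hq, rfl⟩ := exists_frac' hX hf
    obtain ⟨p', q', hp', hq', rfl⟩ := exists_frac' hX hg
    have e : aeval X p / aeval X q + aeval X p' / aeval X q' =
        aeval X (p * q' + q * p') / aeval X (q * q') := by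
      rw [div_add_div _ _ (av_ne hX hq) (av_ne hX hq')]
      simp only [map_add, map_mul]
    rw [e] at hfg ⊢
    have hn : p * q' + q * p' ≠ 0 := by
      intro h
      rw [h] at hfg
      exact hfg (by simp)
    rw [key _ _ hn (mul_ne_zero hq hq'), key _ _ hp hq, key _ _ hp' hq', h1 _ _ hq hq']
    have := h2 _ _ (mul_ne_zero hp hq') (mul_ne_zero hq hp') hn
    rw [h1 _ _ hp hq', h1 _ _ hq hp'] at this
    omega
  · intro c hc
    have := key1 (C c) (by simpa using hc)
    rw [aeval_C] at this
    rw [this, h3 c hc]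
  · obtain ⟨p, q, hp, hq, h⟩ := h4
    exact ⟨aeval X p / aeval X q, div_ne_zero (av_ne hX hp) (av_ne hX hq), by rw [key p q hp hq, h]⟩

theorem ord_frac (hX : IsLine k X) (P : Place k K) {p q : k[X]} (hp : p ≠ 0) (hq : q ≠ 0) :
    P.ord (aeval X p / aeval X q) = P.ord (aeval X p) - P.ord (aeval X q) :=
  P.ord_div (av_ne hX hp) (av_ne hX hq)

theorem place_ext (hX : IsLine k X) (P Q : Place k K)
    (h : ∀ p : k[X], p ≠ 0 → P.ord (aeval X p) = Q.ord (aeval X p)) : P = Q := by
  apply Place.ext
  funext z
  by_cases hz : z = 0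
  · rw [hz, P.ord_zero, Q.ord_zero]
  · obtain ⟨p, q, hp, hq, rfl⟩ := exists_frac' hX hz
    rw [ord_frac hX P hp hq, ord_frac hX Q hp hq, h p hp, h q hq]

theorem exists_atPt (hX : IsLine k X) (a : k) : ∃ q : Place k K, AtPt X q a := by
  refine exists_place hX (fun p => (p.rootMultiplicity a : ℤ)) ?_ ?_ ?_ ?_
  · intro p q hp hq
    rw [rootMultiplicity_mul (mul_ne_zero hp hq)]
    push_cast; ring
  · intro p q hp hq hpq
    have := rootMultiplicity_add (a := a) hpq
    exact_mod_cast this
  · intro c hc
    simp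
  · refine ⟨(Polynomial.X - C a : k[X]), 1, X_sub_C_ne_zero a, one_ne_zero, ?_⟩
    rw [rootMultiplicity_X_sub_C_self]
    have : rootMultiplicity a (1 : k[X]) = 0 := by
      rw [← C_1]; exact rootMultiplicity_C _ _
    rw [this]; simp

theorem exists_atInf (hX : IsLine k X) : ∃ q : Place k K, AtInf X q := by
  refine exists_place hX (fun p => -(p.natDegree : ℤ)) ?_ ?_ ?_ ?_
  · intro p q hp hq
    rw [natDegree_mul hp hq]
    push_cast; ring
  · intro p q hp hq hpq
    have := natDegree_add_le p q
    omega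
  · intro c hc
    simp
  · exact ⟨1, (Polynomial.X : k[X]), one_ne_zero, X_ne_zero, by simp⟩

/-! ### The classification -/

theorem ord_lin [IsAlgClosed k] (hX : IsLine k X) (P : Place k K) (p : k[X]) (hp : p ≠ 0) :
    P.ord (aeval X p) = (p.roots.map fun a => P.ord (X - algebraMap k K a)).sum := by
  have h := (IsAlgClosed.splits p).eq_prod_roots
  have key : ∀ s : Multiset k, (aeval X (s.map (fun a => (Polynomial.X - C a : k[X]))).prod ≠ 0) ∧
      P.ord (aeval X (s.map (fun a => (Polynomial.X - C a : k[X]))).prod) =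
      (s.map fun a => P.ord (X - algebraMap k K a)).sum := by
    intro s
    induction s using Multiset.induction_on with
    | empty => simp [P.ord_one]
    | cons a s ih =>
      have h1 : aeval X (Polynomial.X - C a : k[X]) ≠ 0 := av_ne hX (X_sub_C_ne_zero a)
      rw [Multiset.map_cons, Multiset.map_cons, Multiset.prod_cons, Multiset.sum_cons, map_mul]
      refine ⟨mul_ne_zero h1 ih.1, ?_⟩
      rw [P.ord_mul h1 ih.1, ih.2]
      congr 1
      simp
  conv_lhs => rw [h]
  have hl : p.leadingCoeff ≠ 0 := by simpa using hp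
  rw [map_mul, P.ord_mul _ (key _).1, (key _).2, aeval_C, P.ord_const hl, zero_add]
  rw [aeval_C]
  simpa using hl

theorem classify [IsAlgClosed k] (hX : IsLine k X) (P : Place k K) :
    (∃ a, AtPt X P a) ∨ AtInf X P := by
  classical
  have hX0 : X ≠ 0 := by
    have := av_ne hX (X_ne_zero (R := k))
    simpa using this
  have hl : ∀ a : k, X - algebraMap k K a ≠ 0 := by
    intro a
    have := av_ne hX (X_sub_C_ne_zero a)
    simpa using this
  have hu := P.surj
  obtain ⟨t, ht0, ht⟩ := hu
  obtain ⟨p₁, q₁, hp₁, hq₁, rfl⟩ := exists_frac' hX ht0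
  rw [ord_frac hX P hp₁ hq₁] at ht
  rcases lt_or_ge (P.ord X) 0 with h | h
  · right
    have h1 : ∀ a : k, P.ord (X - algebraMap k K a) = P.ord X := by
      intro a
      by_cases ha : a = 0
      · simp [ha]
      · have hc : algebraMap k K (-a) ≠ 0 := by simpa using ha
        have := P.ord_add_eq hX0 hc (by rw [P.ord_const (neg_ne_zero.2 ha)]; exact h)
        rw [map_neg, ← sub_eq_add_neg] at this
        exact this.2
    have h2 : ∀ p : k[X], p ≠ 0 → P.ord (aeval X p) = p.natDegree * P.ord X := by
      intro p hp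
      rw [ord_lin hX P p hp]
      simp only [h1, Multiset.map_const', Multiset.sum_replicate]
      rw [splits_iff_card_roots.1 (IsAlgClosed.splits p)]
      simp
    rw [h2 _ hp₁, h2 _ hq₁] at ht
    have h3 : P.ord X = -1 := by
      have : P.ord X ∣ 1 := ⟨(p₁.natDegree : ℤ) - q₁.natDegree, by rw [← ht]; ring⟩
      rcases Int.isUnit_iff.1 (isUnit_of_dvd_one this) with h4 | h4
      · omega
      · exact h4
    intro p hp
    rw [h2 p hp, h3]; ring
  · left
    have h0 : ∀ a : k, 0 ≤ P.ord (X - algebraMap k K a) := by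
      intro a
      by_cases ha : a = 0
      · simpa [ha] using h
      · have hc : algebraMap k K a ≠ 0 := by simpa using ha
        have := P.ord_sub hX0 hc (hl a)
        rw [P.ord_const ha] at this
        omega
    have h1 : ∃ a : k, 0 < P.ord (X - algebraMap k K a) := by
      by_contra hcon
      push Not at hcon
      have h2 : ∀ a : k, P.ord (X - algebraMap k K a) = 0 := fun a => le_antisymm (hcon a) (h0 a)
      rw [ord_lin hX P _ hp₁, ord_lin hX P _ hq₁] at ht
      simp [h2] at ht
    obtain ⟨a, ha⟩ := h1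
    have h3 : ∀ b : k, b ≠ a → P.ord (X - algebraMap k K b) = 0 := by
      intro b hb
      have hc : algebraMap k K (a - b) ≠ 0 := by
        rw [Ne, map_eq_zero]; exact sub_ne_zero.2 hb.symm
      have := (P.ord_add_eq hc (hl a) (by rw [P.ord_const (sub_ne_zero.2 hb.symm)]; exact ha)).2
      rw [P.ord_const (sub_ne_zero.2 hb.symm)] at this
      rw [← this]
      congr 1
      rw [map_sub]; ring
    have h4 : ∀ p : k[X], p ≠ 0 →
        P.ord (aeval X p) = p.rootMultiplicity a * P.ord (X - algebraMap k K a) := by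
      intro p hp
      rw [ord_lin hX P p hp, ← count_roots]
      generalize p.roots = s
      induction s using Multiset.induction_on with
      | empty => simp
      | cons b s ih =>
        rw [Multiset.map_cons, Multiset.sum_cons, ih, Multiset.count_cons]
        by_cases hb : b = a
        · subst hb; simp; ring
        · rw [h3 b hb, if_neg (Ne.symm hb)]; simp
    rw [h4 _ hp₁, h4 _ hq₁] at ht
    have h5 : P.ord (X - algebraMap k K a) = 1 := by
      have : P.ord (X - algebraMap k K a) ∣ 1 :=
        ⟨(p₁.rootMultiplicity a : ℤ) - q₁.rootMultiplicity a, by rw [← ht]; ring⟩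
      rcases Int.isUnit_iff.1 (isUnit_of_dvd_one this) with h4 | h4
      · exact h4
      · omega
    refine ⟨a, fun p hp => ?_⟩
    rw [h4 p hp, h5]; ring

/-! ### The residues -/

theorem residue_pt (hX : IsLine k X) (P : Place k K) (a : k) (h : AtPt X P a) (z : K)
    (hz : Ge P 0 z) : ∃ c : k, Ge P 1 (z - algebraMap k K c) := by
  by_cases h0 : z = 0
  · exact ⟨0, by subst h0; left; simp⟩
  have hz := hz.resolve_left h0
  obtain ⟨p, q, hp, hq, rfl⟩ := exists_frac' hX h0
  rw [ord_frac hX P hp hq, h p hp, h q hq] at hz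
  by_cases hlt : q.rootMultiplicity a < p.rootMultiplicity a
  · refine ⟨0, Or.inr ?_⟩
    rw [map_zero, sub_zero, ord_frac hX P hp hq, h p hp, h q hq]
    omega
  have he : p.rootMultiplicity a = q.rootMultiplicity a := by omega
  obtain ⟨p', ep, hp'⟩ := exists_eq_pow_rootMultiplicity_mul_and_not_dvd p hp a
  obtain ⟨q', eq', hq'⟩ := exists_eq_pow_rootMultiplicity_mul_and_not_dvd q hq a
  rw [dvd_iff_isRoot, IsRoot.def] at hp' hq'
  have hq0 : q' ≠ 0 := by rintro rfl; simp at hq'
  have hf : aeval X p / aeval X q = aeval X p' / aeval X q' := by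
    rw [ep, eq', he, map_mul, map_mul]
    exact mul_div_mul_left _ _ (av_ne hX (pow_ne_zero _ (X_sub_C_ne_zero a)))
  refine ⟨p'.eval a / q'.eval a, ?_⟩
  set c := p'.eval a / q'.eval a with hc
  have e : aeval X p / aeval X q - algebraMap k K c = aeval X (p' - C c * q') / aeval X q' := by
    rw [hf, map_sub, map_mul, aeval_C, sub_div, mul_div_assoc, div_self (av_ne hX hq0), mul_one]
  rw [e]
  by_cases hn : p' - C c * q' = 0
  · left; rw [hn]; simp
  · right
    rw [ord_frac hX P hn hq0, h _ hn, h _ hq0]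
    have h1 : q'.rootMultiplicity a = 0 := by
      rw [rootMultiplicity_eq_zero_iff]
      intro hr
      exact absurd hr hq'
    have h2 : 0 < (p' - C c * q').rootMultiplicity a := by
      rw [rootMultiplicity_pos hn, IsRoot.def]
      simp only [eval_sub, eval_mul, eval_C, hc]
      field_simp
      ring
    omega

theorem residue_inf (hX : IsLine k X) (P : Place k K) (h : AtInf X P) (z : K)
    (hz : Ge P 0 z) : ∃ c : k, Ge P 1 (z - algebraMap k K c) := by
  by_cases h0 : z = 0
  · exact ⟨0, by subst h0; left; simp⟩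
  have hz := hz.resolve_left h0
  obtain ⟨p, q, hp, hq, rfl⟩ := exists_frac' hX h0
  rw [ord_frac hX P hp hq, h p hp, h q hq] at hz
  by_cases hlt : p.natDegree < q.natDegree
  · refine ⟨0, Or.inr ?_⟩
    rw [map_zero, sub_zero, ord_frac hX P hp hq, h p hp, h q hq]
    omega
  have he : p.natDegree = q.natDegree := by omega
  refine ⟨p.leadingCoeff / q.leadingCoeff, ?_⟩
  set c := p.leadingCoeff / q.leadingCoeff with hc
  have hlq : q.leadingCoeff ≠ 0 := by simpa using hq
  have hlp : p.leadingCoeff ≠ 0 := by simpa using hp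
  have hc0 : c ≠ 0 := div_ne_zero hlp hlq
  have e : aeval X p / aeval X q - algebraMap k K c = aeval X (p - C c * q) / aeval X q := by
    rw [map_sub, map_mul, aeval_C, sub_div, mul_div_assoc, div_self (av_ne hX hq), mul_one]
  rw [e]
  by_cases hn : p - C c * q = 0
  · left; rw [hn]; simp
  · right
    rw [ord_frac hX P hn hq, h _ hn, h _ hq]
    have h1 : (p - C c * q).degree < p.degree := by
      apply degree_sub_lt_left
      · rw [degree_mul, degree_C hc0, zero_add, degree_eq_natDegree hp, degree_eq_natDegree hq, he]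
      · exact hp
      · rw [leadingCoeff_mul, leadingCoeff_C, hc, div_mul_cancel₀ _ hlq]
    rw [degree_eq_natDegree hn, degree_eq_natDegree hp] at h1
    have h2 : (p - C c * q).natDegree < p.natDegree := by exact_mod_cast h1
    omega

theorem divisorial_one (q : Place k K) : IsDivisorial q 1 := by
  refine ⟨fun i => 0, ?_⟩
  intro p hp
  obtain ⟨c, rfl⟩ : ∃ c, p = MvPolynomial.C c := by
    have : IsEmpty (Fin (1 - 1)) := by
      show IsEmpty (Fin 0); infer_instance
    exact ⟨p.coeff 0, MvPolynomial.eq_C_of_isEmpty p⟩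
  have hc : c ≠ 0 := by rintro rfl; exact hp (by simp)
  rw [MvPolynomial.aeval_C]
  exact ⟨by simpa using hc, q.ord_const hc⟩

end

/-- LP-6, first part. -/
theorem t_PLC : S_PLC := by
  intro k K _ _ _ _ X hX
  refine ⟨classify hX, exists_atPt hX, exists_atInf hX, ?_, ?_, divisorial_one, ?_⟩
  · intro q q' a h h'
    exact place_ext hX q q' fun p hp => by rw [h p hp, h' p hp]
  · intro q q' h h'
    exact place_ext hX q q' fun p hp => by rw [h p hp, h' p hp]
  · intro q z hz
    rcases classify hX q with ⟨a, h⟩ | h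
    · exact residue_pt hX q a h z hz
    · exact residue_inf hX q h z hz

/-- LP-6, second part. -/
theorem t_MUL : S_MUL := by
  classical
  intro k K _ _ _ _ X hX f hf q
  have hXo : aeval X (Polynomial.X : k[X]) = X := aeval_X _
  constructor
  · intro a h
    have h1 : q.ord X = (Polynomial.X : k[X]).rootMultiplicity a := by
      rw [← h _ X_ne_zero, hXo]
    have h2 : ({1, X} : Finset K).inf' ⟨1, Finset.mem_insert_self _ _⟩ q.ord = 0 := by
      apply le_antisymm
      · refine (Finset.inf'_le _ (Finset.mem_insert_self _ _)).trans ?_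
        rw [q.ord_one]
      · apply Finset.le_inf'
        intro b hb
        rw [Finset.mem_insert, Finset.mem_singleton] at hb
        rcases hb with rfl | rfl
        · rw [q.ord_one]
        · rw [h1]; positivity
    show q.ord (aeval X f) - f.natDegree * Finset.inf' _ _ q.ord = _
    have h3 : (pdiv X hX.tr f hf).S.inf' (pdiv X hX.tr f hf).ne q.ord = 0 := by
      convert h2
      ext z; simp [pdiv]
    change _ - _ * (pdiv X hX.tr f hf).S.inf' (pdiv X hX.tr f hf).ne q.ord = _
    rw [h3, h f hf]; ring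
  · intro h
    have h1 : q.ord X = -1 := by
      have := h Polynomial.X X_ne_zero
      rw [hXo] at this
      rw [this]; simp
    have h2 : ({1, X} : Finset K).inf' ⟨1, Finset.mem_insert_self _ _⟩ q.ord = -1 := by
      apply le_antisymm
      · refine (Finset.inf'_le _ (Finset.mem_insert_of_mem (Finset.mem_singleton_self _))).trans ?_
        rw [h1]
      · apply Finset.le_inf'
        intro b hb
        rw [Finset.mem_insert, Finset.mem_singleton] at hb
        rcases hb with rfl | rfl
        · rw [q.ord_one]; norm_num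
        · rw [h1]
    have h3 : (pdiv X hX.tr f hf).S.inf' (pdiv X hX.tr f hf).ne q.ord = -1 := by
      convert h2
      ext z; simp [pdiv]
    show q.ord (aeval X f) - f.natDegree * Finset.inf' _ _ q.ord = _
    change _ - _ * (pdiv X hX.tr f hf).S.inf' (pdiv X hX.tr f hf).ne q.ord = _
    rw [h3, h f hf]; ring

end Pool.Agent.K1H69.LP
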